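import Pool.Agent.DFM.Stmts

/-!
# DFM, row ATT: the coinitiality and the cofinality are attained
-/

set_option autoImplicit false

namespace Pool.Agent.DFM.H77

open Pool.Agent.DFM

/-- **ATT** -/
theorem att : AttStmt := by
  intro P _
  refine ⟨?_, ?_⟩
  · have h : coi P ∈ {c : Cardinal.{0} | ∃ S : Set P, Coinit S ∧ Cardinal.mk S = c} :=
      csInf_mem ⟨Cardinal.mk (Set.univ : Set P), Set.univ, fun x => ⟨x, Set.mem_univ x, le_rfl⟩, rfl⟩
    exact h
  · have h : cfl P ∈ {c : Cardinal.{0} | ∃ S : Set P, Cofin S ∧ Cardinal.mk S = c} :=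
      csInf_mem ⟨Cardinal.mk (Set.univ : Set P), Set.univ, fun x => ⟨x, Set.mem_univ x, le_rfl⟩, rfl⟩
    exact h

end Pool.Agent.DFM.H77
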